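import Pool.Agent.X283.TGH.StepB

set_option autoImplicit false

namespace Pool.Agent.X283.TGH

section Seq

variable (f : ℕ → Ga)

/-- A rapidly growing sequence. -/
noncomputable def yy : ℕ → ℝ
  | 0 => 0
  | n + 1 => yy n + 1 + ∑ k ∈ Finset.range (n + 1), (|f k (yy n)| + |f k (-(yy n))| +
      |(f k)⁻¹ (yy n)| + |(f k)⁻¹ (-(yy n))|)

theorem yy_succ (n : ℕ) : yy f n + 1 ≤ yy f (n + 1) ∧ ∀ k ≤ n, |f k (yy f n)| < yy f (n + 1) ∧
    |f k (-(yy f n))| < yy f (n + 1) ∧ |(f k)⁻¹ (yy f n)| < yy f (n + 1) ∧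
    |(f k)⁻¹ (-(yy f n))| < yy f (n + 1) := by
  have h0 : ∀ n, 0 ≤ yy f n := by
    intro n
    induction n with
    | zero => exact le_rfl
    | succ n ih =>
      rw [yy]
      positivity
  have hs : ∀ k ∈ Finset.range (n + 1), 0 ≤ |f k (yy f n)| + |f k (-(yy f n))| +
      |(f k)⁻¹ (yy f n)| + |(f k)⁻¹ (-(yy f n))| := fun k _ => by positivity
  have h1 := Finset.sum_nonneg hs
  have h2 : yy f (n + 1) = yy f n + 1 + ∑ k ∈ Finset.range (n + 1), (|f k (yy f n)| +
      |f k (-(yy f n))| + |(f k)⁻¹ (yy f n)| + |(f k)⁻¹ (-(yy f n))|) := by rw [yy]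
  refine ⟨by linarith, fun k hk => ?_⟩
  have h3 := Finset.single_le_sum hs (Finset.mem_range.2 (Nat.lt_succ_of_le hk))
  have h4 := h0 n
  have a1 := abs_nonneg (f k (yy f n))
  have a2 := abs_nonneg (f k (-(yy f n)))
  have a3 := abs_nonneg ((f k)⁻¹ (yy f n))
  have a4 := abs_nonneg ((f k)⁻¹ (-(yy f n)))
  refine ⟨?_, ?_, ?_, ?_⟩ <;> linarith

/-- The two-sided sequence. -/
noncomputable def xx (n : ℤ) : ℝ := if 0 ≤ n then yy f n.natAbs else -(yy f n.natAbs)

theorem xx_nat (n : ℕ) : xx f n = yy f n := by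
  unfold xx
  rw [if_pos (by omega)]
  simp

theorem xx_neg (n : ℕ) : xx f (-(n : ℤ)) = -(yy f n) := by
  rcases Nat.eq_zero_or_pos n with h | h
  · subst h
    simp [xx, yy]
  · unfold xx
    rw [if_neg (by omega)]
    simp

theorem xx_strictMono : StrictMono (xx f) := by
  apply strictMono_int_of_lt_succ
  intro n
  rcases le_or_gt 0 n with h | h
  · obtain ⟨m, rfl⟩ := Int.eq_ofNat_of_zero_le h
    have h1 := (yy_succ f m).1
    have e : ((m : ℤ) + 1) = ((m + 1 : ℕ) : ℤ) := by push_cast; ring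
    rw [e, xx_nat, xx_nat]
    linarith
  · obtain ⟨m, hm⟩ : ∃ m : ℕ, n = -((m + 1 : ℕ) : ℤ) := ⟨(-n - 1).toNat, by omega⟩
    have h1 := (yy_succ f m).1
    have e : n + 1 = -(m : ℤ) := by rw [hm]; push_cast; ring
    rw [e, hm, xx_neg, xx_neg]
    linarith

theorem yy_ge (n : ℕ) : (n : ℝ) ≤ yy f n := by
  induction n with
  | zero => simp [yy]
  | succ n ih =>
    have h1 := (yy_succ f n).1
    push_cast
    linarith

theorem xx_ub (y : ℝ) : ∃ n : ℤ, y < xx f n := by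
  obtain ⟨n, hn⟩ := exists_nat_gt y
  exact ⟨n, by rw [xx_nat]; exact lt_of_lt_of_le hn (yy_ge f n)⟩

theorem xx_lb (y : ℝ) : ∃ n : ℤ, xx f n < y := by
  obtain ⟨n, hn⟩ := exists_nat_gt (-y)
  have := yy_ge f n
  exact ⟨-(n : ℤ), by rw [xx_neg]; linarith⟩

theorem xx_bound (k : ℕ) (n : ℤ) (hn : (k : ℤ) + 1 ≤ |n|) :
    xx f (n - 1) < f k (xx f n) ∧ f k (xx f n) < xx f (n + 1) := by
  rcases le_or_gt 0 n with h | h
  · rw [abs_of_nonneg h] at hn
    obtain ⟨m, hm⟩ : ∃ m : ℕ, n = ((m + 1 : ℕ) : ℤ) := ⟨(n - 1).toNat, by omega⟩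
    have e1 : n - 1 = ((m : ℕ) : ℤ) := by omega
    have e2 : n + 1 = ((m + 2 : ℕ) : ℤ) := by omega
    rw [e1, e2, hm, xx_nat, xx_nat, xx_nat]
    have h1 := ((yy_succ f m).2 k (by omega)).2.2.1
    have h2 := ((yy_succ f (m + 1)).2 k (by omega)).1
    constructor
    · have h3 := (f k).strictMono (lt_of_le_of_lt (le_abs_self _) h1)
      rwa [RelIso.apply_inv_self] at h3
    · exact lt_of_le_of_lt (le_abs_self _) h2
  · rw [abs_of_neg h] at hn
    obtain ⟨m, hm⟩ : ∃ m : ℕ, n = -((m + 1 : ℕ) : ℤ) := ⟨(-n - 1).toNat, by omega⟩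
    have e1 : n - 1 = -((m + 2 : ℕ) : ℤ) := by omega
    have e2 : n + 1 = -((m : ℕ) : ℤ) := by omega
    rw [e1, e2, hm, xx_neg, xx_neg, xx_neg]
    have h1 := ((yy_succ f m).2 k (by omega)).2.2.2
    have h2 := ((yy_succ f (m + 1)).2 k (by omega)).2.1
    constructor
    · have h3 := neg_abs_le (f k (-(yy f (m + 1))))
      have h4 : yy f (m + 1 + 1) = yy f (m + 2) := rfl
      rw [h4] at h2
      linarith
    · have h3 := neg_abs_le ((f k)⁻¹ (-(yy f m)))
      have h4 : -(yy f (m + 1)) < (f k)⁻¹ (-(yy f m)) := by linarith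
      have h5 := (f k).strictMono h4
      rwa [RelIso.apply_inv_self] at h5

end Seq

/-- Contraction. -/
noncomputable def zz : Ga := aff (1 / 2) 0 (by norm_num)

theorem zz_pow (m : ℕ) (x : ℝ) : (zz ^ m) x = x / 2 ^ m := by
  induction m generalizing x with
  | zero => simp
  | succ m ih =>
    rw [pow_succ', RelIso.mul_apply, ih]
    unfold zz
    rw [aff_apply, pow_succ]
    field_simp
    ring

/-- **Every countable set of automorphisms of the line lies in a two-generated subgroup.** -/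
theorem countable_two (f : ℕ → Ga) : ∃ a b : Ga, ∀ k, f k ∈ Subgroup.closure ({a, b} : Set Ga) := by
  classical
  set x := xx f with hxdef
  have hx : StrictMono x := xx_strictMono f
  have hlt : ∀ a b : ℤ, a < b → x a < x b := fun a b h => hx h
  have hdec : ∀ k, ∃ g hc ho : Ga, f k = g * hc * ho ∧
      Su g {y | ∃ n : ℤ, y ∈ Set.Ioo (x (8 * n + -3)) (x (8 * n + 3))} ∧
      Su ho {y | ∃ n : ℤ, y ∈ Set.Ioo (x (8 * n + 1)) (x (8 * n + 7))} ∧
      ∃ m : ℕ, Su (zz ^ m * hc * (zz ^ m)⁻¹) (Set.Ioo (-1) 1) := by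
    intro k
    obtain ⟨g, hg1, hg2⟩ := frag hx (P := 8) le_rfl (f k) {n | (k : ℤ) + 1 ≤ |n|}
      (by
        intro n hn
        have hn' : (k : ℤ) + 1 ≤ |n| := hn
        have h1 := (xx_bound f k (8 * n + -1) (by
          rcases abs_cases n with ⟨h2, h2'⟩ | ⟨h2, h2'⟩ <;>
          rcases abs_cases (8 * n + -1) with ⟨h3, h3'⟩ | ⟨h3, h3'⟩ <;>
          rw [h2] at hn' <;> rw [h3] <;> omega)).1
        have e : 8 * n + -1 - 1 = 8 * n + -2 := by ring
        rwa [e] at h1)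
      (by
        intro n hn
        have hn' : (k : ℤ) + 1 ≤ |n| := hn
        have h1 := (xx_bound f k (8 * n + 1) (by
          rcases abs_cases n with ⟨h2, h2'⟩ | ⟨h2, h2'⟩ <;>
          rcases abs_cases (8 * n + 1) with ⟨h3, h3'⟩ | ⟨h3, h3'⟩ <;>
          rw [h2] at hn' <;> rw [h3] <;> omega)).2
        have e : 8 * n + 1 + 1 = 8 * n + 2 := by ring
        rwa [e] at h1)
    obtain ⟨N, hN⟩ : ∃ N : ℤ, N = (k : ℤ) + 1 := ⟨_, rfl⟩
    have hfix : ∀ n : ℤ, N ≤ |n| → ∀ y, x (8 * n + -1) ≤ y → y ≤ x (8 * n + 1) →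
        (g⁻¹ * f k) y = y := by
      intro n hn y h1 h2
      rw [RelIso.mul_apply, ← hg2 n (by rw [Set.mem_ofPred_eq, ← hN]; exact hn) y h1 h2,
        RelIso.inv_apply_self]
    have hp : (g⁻¹ * f k) (x (8 * -N + 0)) = x (8 * -N + 0) :=
      hfix (-N) (by rw [abs_neg]; exact le_abs_self N) _ (hlt _ _ (by omega)).le
        (hlt _ _ (by omega)).le
    have hq : (g⁻¹ * f k) (x (8 * N + 0)) = x (8 * N + 0) :=
      hfix N (le_abs_self N) _ (hlt _ _ (by omega)).le (hlt _ _ (by omega)).le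
    obtain ⟨hc, hc1, hc2⟩ := exists_cut (g⁻¹ * f k) hp hq
    refine ⟨g, hc, hc⁻¹ * (g⁻¹ * f k), by group, hg1, ?_, ?_⟩
    · intro y hy
      rw [RelIso.mul_apply]
      by_cases hin : y ∈ Set.Ioo (x (8 * -N + 0)) (x (8 * N + 0))
      · rw [← hc2 y hin, RelIso.inv_apply_self]
      · obtain ⟨n, h1, h2⟩ := locateP hx (xx_ub f) (xx_lb f) (P := 8) (by norm_num) (-1) y
        have h3 : y ≤ x (8 * n + 1) := by
          by_contra hcon
          apply hy
          refine ⟨n, not_le.1 hcon, ?_⟩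
          have e : 8 * n + -1 + 8 = 8 * n + 7 := by ring
          rwa [e] at h2
        have h4 : N ≤ |n| := by
          rw [Set.mem_Ioo, not_and_or, not_lt, not_lt] at hin
          rcases hin with hin | hin
          · have h5 := hx.le_iff_le.1 (h1.trans hin)
            have h6 := neg_abs_le n
            omega
          · have h5 := hx.le_iff_le.1 (hin.trans h3)
            have h6 := le_abs_self n
            omega
        rw [hfix n h4 y h1 h3]
        exact hc1.inv y hin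
    · obtain ⟨m, hm⟩ := pow_unbounded_of_one_lt (|x (8 * -N + 0)| + |x (8 * N + 0)|)
        (by norm_num : (1 : ℝ) < 2)
      refine ⟨m, hc1.conj ?_⟩
      rintro y ⟨h1, h2⟩
      have h3 : y = ((zz ^ m)⁻¹ y) / 2 ^ m := by
        rw [← zz_pow, RelIso.apply_inv_self]
      have hpos : (0 : ℝ) < 2 ^ m := by positivity
      have a1 := neg_abs_le (x (8 * -N + 0))
      have a2 := le_abs_self (x (8 * N + 0))
      have a3 := abs_nonneg (x (8 * -N + 0))
      have a4 := abs_nonneg (x (8 * N + 0))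
      rw [h3]
      constructor
      · rw [lt_div_iff₀ hpos]; linarith
      · rw [div_lt_iff₀ hpos]; linarith
  choose g hc ho hf hg hho m hm using hdec
  obtain ⟨s1, W1, h1⟩ := coded_nat (ι := ℤ) (fun n => x (8 * n + -4)) (fun n => x (8 * n + -3))
    (fun n => x (8 * n + 3)) (fun n => x (8 * n + 4)) (fun n => hlt _ _ (by omega))
    (fun n => hlt _ _ (by omega)) (fun n => hlt _ _ (by omega))
    (fun i j y hi hj => dis_block hx (by norm_num) (by norm_num) i j y hi hj) g hg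
  obtain ⟨s2, W2, h2⟩ := coded_nat (ι := ℤ) (fun n => x (8 * n + 0)) (fun n => x (8 * n + 1))
    (fun n => x (8 * n + 7)) (fun n => x (8 * n + 8)) (fun n => hlt _ _ (by omega))
    (fun n => hlt _ _ (by omega)) (fun n => hlt _ _ (by omega))
    (fun i j y hi hj => dis_block hx (by norm_num) (by norm_num) i j y hi hj) ho hho
  obtain ⟨s3, W3, h3⟩ := coded_nat (ι := Unit) (fun _ => -2) (fun _ => -1) (fun _ => 1)
    (fun _ => 2) (fun _ => by norm_num) (fun _ => by norm_num) (fun _ => by norm_num)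
    (fun i j y _ _ => rfl) (fun k => zz ^ (m k) * hc k * (zz ^ (m k))⁻¹)
    (fun k => (hm k).mono (fun y hy => ⟨(), hy⟩))
  obtain ⟨a, b, hab⟩ := finite_two (κ := Fin 7) ![s1, W1, s2, W2, s3, W3, zz]
  refine ⟨a, b, fun k => ?_⟩
  have c0 : s1 ∈ Subgroup.closure ({a, b} : Set Ga) := hab 0
  have c1 : W1 ∈ Subgroup.closure ({a, b} : Set Ga) := hab 1
  have c2 : s2 ∈ Subgroup.closure ({a, b} : Set Ga) := hab 2
  have c3 : W2 ∈ Subgroup.closure ({a, b} : Set Ga) := hab 3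
  have c4 : s3 ∈ Subgroup.closure ({a, b} : Set Ga) := hab 4
  have c5 : W3 ∈ Subgroup.closure ({a, b} : Set Ga) := hab 5
  have c6 : zz ∈ Subgroup.closure ({a, b} : Set Ga) := hab 6
  have hle : ∀ s W : Ga, s ∈ Subgroup.closure ({a, b} : Set Ga) →
      W ∈ Subgroup.closure ({a, b} : Set Ga) →
      Subgroup.closure ({s, W} : Set Ga) ≤ Subgroup.closure ({a, b} : Set Ga) := by
    intro s W hs hW
    rw [Subgroup.closure_le]
    intro z hz
    rcases hz with rfl | hz
    · exact hs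
    · rw [Set.mem_singleton_iff] at hz
      rw [hz]
      exact hW
  have d1 := hle _ _ c0 c1 (h1 k)
  have d2 := hle _ _ c2 c3 (h2 k)
  have d3 := hle _ _ c4 c5 (h3 k)
  have d4 : hc k ∈ Subgroup.closure ({a, b} : Set Ga) := by
    have e1 : hc k = (zz ^ (m k))⁻¹ * (zz ^ (m k) * hc k * (zz ^ (m k))⁻¹) * zz ^ (m k) := by
      group
    rw [e1]
    exact Subgroup.mul_mem _ (Subgroup.mul_mem _ (Subgroup.inv_mem _ (Subgroup.pow_mem _ c6 _)) d3)
      (Subgroup.pow_mem _ c6 _)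
  rw [hf k]
  exact Subgroup.mul_mem _ (Subgroup.mul_mem _ d1 d4) d2

end Pool.Agent.X283.TGH
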