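import Pool.Agent.X283.TGH.Wander

set_option autoImplicit false

namespace Pool.Agent.X283.TGH

theorem dis_block {x : ℤ → ℝ} (hx : StrictMono x) {P a b : ℤ} (hab : b - a ≤ P)
    (hP : 0 < P) (n m : ℤ) (y : ℝ)
    (h1 : y ∈ Set.Ioo (x (P * n + a)) (x (P * n + b)))
    (h2 : y ∈ Set.Ioo (x (P * m + a)) (x (P * m + b))) : n = m := by
  have e1 : P * n + a < P * m + b := hx.lt_iff_lt.1 (h1.1.trans h2.2)
  have e2 : P * m + a < P * n + b := hx.lt_iff_lt.1 (h2.1.trans h1.2)
  have e3 : P * (n - m) < P * 1 := by rw [mul_sub]; linarith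
  have e4 : P * (m - n) < P * 1 := by rw [mul_sub]; linarith
  have e5 := lt_of_mul_lt_mul_left e3 hP.le
  have e6 := lt_of_mul_lt_mul_left e4 hP.le
  omega

theorem locate {u : ℤ → ℝ} (hub : ∀ y : ℝ, ∃ n, y < u n) (hlb : ∀ y : ℝ, ∃ n, u n ≤ y)
    (hu : StrictMono u) (y : ℝ) : ∃ n, u n ≤ y ∧ y < u (n + 1) := by
  obtain ⟨N, hN⟩ := hub y
  obtain ⟨M, hM⟩ := hlb y
  obtain ⟨n, hn1, hn2⟩ := Int.exists_greatest_of_bdd (P := fun n => u n ≤ y)
    ⟨N, fun z hz => by
      by_contra hcon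
      have := hu (not_le.1 hcon)
      linarith⟩ ⟨M, hM⟩
  refine ⟨n, hn1, ?_⟩
  by_contra hcon
  have := hn2 (n + 1) (not_lt.1 hcon)
  omega

/-- Fragmentation. -/
theorem frag {x : ℤ → ℝ} (hx : StrictMono x) {P : ℤ} (hP : 8 ≤ P) (f : Ga) (Gd : Set ℤ)
    (h1 : ∀ n ∈ Gd, x (P * n + -2) < f (x (P * n + -1)))
    (h2 : ∀ n ∈ Gd, f (x (P * n + 1)) < x (P * n + 2)) :
    ∃ g : Ga, Su g {y | ∃ n, y ∈ Set.Ioo (x (P * n + -3)) (x (P * n + 3))} ∧
      ∀ n ∈ Gd, ∀ y, x (P * n + -1) ≤ y → y ≤ x (P * n + 1) → g y = f y := by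
  classical
  have hex : ∀ n : ℤ, ∃ g : Ga, Su g (Set.Ioo (x (P * n + -3)) (x (P * n + 3))) ∧
      (n ∈ Gd → ∀ y, x (P * n + -1) ≤ y → y ≤ x (P * n + 1) → g y = f y) := by
    intro n
    by_cases hn : n ∈ Gd
    · have e1 : x (P * n + -3) < x (P * n + -2) := hx (by omega)
      have e2 : x (P * n + -2) < x (P * n + -1) := hx (by omega)
      have e3 : x (P * n + -1) < x (P * n + 1) := hx (by omega)
      have e4 : x (P * n + 1) < x (P * n + 2) := hx (by omega)
      have e5 : x (P * n + 2) < x (P * n + 3) := hx (by omega)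
      obtain ⟨g, hg1, hg2⟩ := exists_trim f (e1.trans e2) e3.le (e4.trans e5)
        (e1.trans (h1 n hn)) ((h2 n hn).trans e5)
      exact ⟨g, hg1, fun _ y hy1 hy2 => hg2 y hy1 hy2⟩
    · exact ⟨1, su_one _, fun h => absurd h hn⟩
  choose g hg1 hg2 using hex
  obtain ⟨G, hG1, hG2⟩ := exists_glue g
    (fun n => Set.Ioo (x (P * n + -3)) (x (P * n + 3)))
    (fun i j y hi hj => dis_block hx (by omega) (by omega) i j y hi hj) hg1
  refine ⟨G, fun y hy => hG2 y (fun n hn => hy ⟨n, hn⟩), fun n hn y hy1 hy2 => ?_⟩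
  have e1 : x (P * n + -3) < x (P * n + -1) := hx (by omega)
  have e2 : x (P * n + 1) < x (P * n + 3) := hx (by omega)
  rw [hG1 n y ⟨by linarith, by linarith⟩]
  exact hg2 n hn y hy1 hy2

/-- A common bound for finitely many automorphisms. -/
theorem exists_bound {κ : Type} [Fintype κ] (φ : κ → Ga) :
    ∃ T : Ga, (∀ y, y + 1 ≤ T y) ∧ ∀ i y, φ i y < T y ∧ (φ i)⁻¹ y < T y := by
  classical
  have key : ∀ s : Finset κ, ∃ T : Ga, (∀ y, y + 1 ≤ T y) ∧
      ∀ i ∈ s, ∀ y, φ i y < T y ∧ (φ i)⁻¹ y < T y := by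
    intro s
    induction s using Finset.induction_on with
    | empty => exact ⟨aff 1 1 one_pos, fun y => by rw [aff_apply]; linarith, by simp⟩
    | insert a s _ ih =>
      obtain ⟨T, hT1, hT2⟩ := ih
      refine ⟨mx T (aff 1 1 one_pos * mx (φ a) (φ a)⁻¹), fun y => ?_, fun i hi y => ?_⟩
      · rw [mx_apply]
        exact (hT1 y).trans (le_max_left _ _)
      · rw [mx_apply, RelIso.mul_apply, aff_apply, mx_apply]
        rw [Finset.mem_insert] at hi
        rcases hi with rfl | hi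
        · constructor
          · apply lt_max_of_lt_right
            have := le_max_left (φ i y) ((φ i)⁻¹ y)
            linarith
          · apply lt_max_of_lt_right
            have := le_max_right (φ i y) ((φ i)⁻¹ y)
            linarith
        · exact ⟨lt_max_of_lt_left (hT2 i hi y).1, lt_max_of_lt_left (hT2 i hi y).2⟩
  obtain ⟨T, hT1, hT2⟩ := key Finset.univ
  exact ⟨T, hT1, fun i y => hT2 i (Finset.mem_univ i) y⟩

section Orbit

variable {T : Ga} (hT : ∀ y, y + 1 ≤ T y)

/-- The orbit of `0`. -/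
def orb (T : Ga) (n : ℤ) : ℝ := (T ^ n) 0

theorem orb_add (T : Ga) (j n : ℤ) : (T ^ j) (orb T n) = orb T (n + j) := by
  unfold orb
  rw [← RelIso.mul_apply, ← zpow_add]
  congr 2
  ring

include hT in
theorem orb_succ (n : ℤ) : orb T n + 1 ≤ orb T (n + 1) := by
  rw [← orb_add T 1 n, zpow_one]
  exact hT _

include hT in
theorem orb_strictMono : StrictMono (orb T) := by
  apply strictMono_int_of_lt_succ
  intro n
  have := orb_succ hT n
  linarith

include hT in
theorem orb_nat (n : ℕ) : (n : ℝ) ≤ orb T n ∧ orb T (-n) ≤ -(n : ℝ) := by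
  induction n with
  | zero => simp [orb]
  | succ n ih =>
    have h1 := orb_succ hT (n : ℤ)
    have h2 := orb_succ hT (-((n : ℤ) + 1))
    have e : -((n : ℤ) + 1) + 1 = -(n : ℤ) := by ring
    rw [e] at h2
    push_cast
    constructor
    · linarith [ih.1]
    · linarith [ih.2]

include hT in
theorem orb_ub (y : ℝ) : ∃ n : ℤ, y < orb T n := by
  obtain ⟨n, hn⟩ := exists_nat_gt y
  exact ⟨n, lt_of_lt_of_le hn (orb_nat hT n).1⟩

include hT in
theorem orb_lb (y : ℝ) : ∃ n : ℤ, orb T n < y := by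
  obtain ⟨n, hn⟩ := exists_nat_gt (-y)
  exact ⟨-n, lt_of_le_of_lt (orb_nat hT n).2 (by linarith)⟩

end Orbit

/-- Locating a point among the `x (P n + a)`. -/
theorem locateP {x : ℤ → ℝ} (hx : StrictMono x) (hub : ∀ y : ℝ, ∃ n, y < x n)
    (hlb : ∀ y : ℝ, ∃ n, x n < y) {P : ℤ} (hP : 0 < P) (a : ℤ) (y : ℝ) :
    ∃ n, x (P * n + a) ≤ y ∧ y < x (P * n + a + P) := by
  obtain ⟨n, h1, h2⟩ := locate (u := fun n => x (P * n + a))
    (fun y => by
      obtain ⟨n, hn⟩ := hub y
      refine ⟨|n| + |a|, lt_of_lt_of_le hn (hx.monotone ?_)⟩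
      have h3 : |n| + |a| ≤ P * (|n| + |a|) := by
        have := abs_nonneg n
        have := abs_nonneg a
        nlinarith
      have h4 := le_abs_self n
      have h5 := neg_abs_le a
      linarith)
    (fun y => by
      obtain ⟨n, hn⟩ := hlb y
      refine ⟨-(|n| + |a|), le_trans (hx.monotone ?_) hn.le⟩
      have h3 : |n| + |a| ≤ P * (|n| + |a|) := by
        have := abs_nonneg n
        have := abs_nonneg a
        nlinarith
      have h4 := neg_abs_le n
      have h5 := le_abs_self a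
      linarith)
    (fun n m h => hx (by nlinarith)) y
  refine ⟨n, h1, ?_⟩
  have e : P * (n + 1) + a = P * n + a + P := by ring
  rwa [e] at h2

/-- **Every finite set of automorphisms lies in a two-generated subgroup.** -/
theorem finite_two {κ : Type} [Fintype κ] (φ : κ → Ga) :
    ∃ a b : Ga, ∀ i, φ i ∈ Subgroup.closure ({a, b} : Set Ga) := by
  classical
  obtain ⟨T, hT, hφ⟩ := exists_bound φ
  set x := orb T with hxdef
  have hx : StrictMono x := orb_strictMono hT
  -- the number of coded elements and the period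
  let ι := Option (κ ⊕ κ)
  let K : ℕ := Fintype.card (Option ι)
  let e : Option ι → ℕ := fun o => (Fintype.equivFin (Option ι) o).val
  have he : Function.Injective e := fun a b hab =>
    (Fintype.equivFin (Option ι)).injective (Fin.ext hab)
  have heK : ∀ o, e o < K := fun o => (Fintype.equivFin (Option ι) o).isLt
  obtain ⟨M, hM⟩ : ∃ M : ℤ, M = 4 * 2 ^ K := ⟨_, rfl⟩
  have hK1 : (1 : ℤ) ≤ 2 ^ K := one_le_pow₀ (by norm_num)
  have hM4 : 4 ≤ M := by omega
  obtain ⟨P, hP⟩ : ∃ P : ℤ, P = 6 * M := ⟨_, rfl⟩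
  have hP24 : 24 ≤ P := by omega
  have hlt : ∀ a b : ℤ, a < b → x a < x b := fun a b h => hx h
  -- the expanding element
  obtain ⟨p, hp1, -, hp2⟩ := exists_wander (fun n : ℤ => x (P * n + 1)) (fun n => x (P * n + 2))
    (fun n => x (P * n + 3)) (fun n => x (P * n + 4)) (fun n => hlt _ _ (by omega))
    (fun n => hlt _ _ (by omega)) (fun n => hlt _ _ (by omega))
    (fun i j y hi hj => dis_block hx (by omega) (by omega) i j y hi hj)
  obtain ⟨t, ht1, ht2, -⟩ := exists_wander (fun n : ℤ => x (P * n + 0)) (fun n => x (P * n + 1))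
    (fun n => x (P * n + 4)) (fun n => x (P * n + 6)) (fun n => hlt _ _ (by omega))
    (fun n => hlt _ _ (by omega)) (fun n => hlt _ _ (by omega))
    (fun i j y hi hj => dis_block hx (by omega) (by omega) i j y hi hj)
  have hT' : ∀ (j n : ℤ), (T ^ j) (x n) = x (n + j) := fun j n => orb_add T j n
  have hTi : ∀ (j n : ℤ), (T ^ j)⁻¹ (x n) = x (n - j) := by
    intro j n
    rw [← zpow_neg, hT']
    rfl
  have hpfix : ∀ m : ℤ, (∀ n : ℤ, ¬ (P * n + 1 < m ∧ m < P * n + 4)) → p (x m) = x m := by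
    intro m hm
    apply hp1
    rintro ⟨n, hn⟩
    exact hm n ⟨hx.lt_iff_lt.1 hn.1, hx.lt_iff_lt.1 hn.2⟩
  let cc : ℕ → Ga := fun j => Nat.rec 1 (fun j c => T ^ (j : ℤ) * p * (T ^ (j : ℤ))⁻¹ * c) j
  have cc0 : cc 0 = 1 := rfl
  have ccs : ∀ j : ℕ, cc (j + 1) = T ^ (j : ℤ) * p * (T ^ (j : ℤ))⁻¹ * cc j := fun j => rfl
  have hcc : ∀ j : ℕ, (j : ℤ) ≤ P - 3 → ∀ n : ℤ, cc j (x (P * n + 1)) = x (P * n + 1) ∧
      cc j (x (P * n + 2)) = x (P * n + 2 + j) := by
    intro j
    induction j with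
    | zero => intro _ n; rw [cc0]; simp
    | succ j ih =>
      intro hj n
      push_cast at hj
      obtain ⟨i1, i2⟩ := ih (by omega) n
      rw [ccs]
      simp only [RelIso.mul_apply]
      rw [i1, i2, hTi, hTi]
      constructor
      · rw [hpfix, hT']
        · congr 1
          ring
        · rintro m ⟨h1, h2⟩
          have h3 : P * (n - m) > 0 := by rw [mul_sub]; omega
          have h4 : 0 < n - m := by
            by_contra hcon
            have : P * (n - m) ≤ 0 := mul_nonpos_of_nonneg_of_nonpos (by omega) (by omega)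
            omega
          have h5 : P * 1 ≤ P * (n - m) := mul_le_mul_of_nonneg_left (by omega) (by omega)
          rw [mul_sub] at h5
          omega
      · have e1 : P * n + 2 + (j : ℤ) - j = P * n + 2 := by ring
        rw [e1, hp2, hT']
        congr 1
        push_cast
        ring
  obtain ⟨c, hc⟩ : ∃ c, c = cc (P - 3).toNat := ⟨_, rfl⟩
  have hc1 : ∀ n : ℤ, c (x (P * n + 1)) = x (P * n + 1) := fun n => by
    rw [hc]
    exact (hcc _ (by rw [Int.toNat_of_nonneg (by omega)]) n).1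
  have hc2 : ∀ n : ℤ, c (x (P * n + 2)) = x (P * n + (P - 1)) := fun n => by
    rw [hc, (hcc _ (by rw [Int.toNat_of_nonneg (by omega)]) n).2,
      Int.toNat_of_nonneg (by omega)]
    congr 1
    ring
  -- elements supported in the large intervals are conjugated into the small ones
  have hconj : ∀ h : Ga, Su h {y | ∃ n, y ∈ Set.Ioo (x (P * n + 1)) (x (P * n + (P - 1)))} →
      Su (c⁻¹ * h * c) {y | ∃ n, y ∈ Set.Ioo (x (P * n + 1)) (x (P * n + 4))} := by
    intro h hh y hy
    simp only [RelIso.mul_apply]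
    rw [hh (c y), RelIso.inv_apply_self]
    rintro ⟨n, hn1, hn2⟩
    apply hy
    refine ⟨n, ?_, ?_⟩
    · rw [← hc1 n] at hn1
      exact c.lt_iff_lt.1 hn1
    · rw [← hc2 n] at hn2
      exact (c.lt_iff_lt.1 hn2).trans (hlt _ _ (by omega))
  -- fragmentation
  have hfr : ∀ i, ∃ g h : Ga, φ i = g * h ∧
      Su g {y | ∃ n, y ∈ Set.Ioo (x (P * n + -3)) (x (P * n + 3))} ∧
      Su h {y | ∃ n, y ∈ Set.Ioo (x (P * n + 1)) (x (P * n + (P - 1)))} := by
    intro i
    have hsucc : ∀ m : ℤ, T (x m) = x (m + 1) := fun m => by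
      have := hT' 1 m
      rwa [zpow_one] at this
    obtain ⟨g, hg1, hg2⟩ := frag hx (P := P) (by omega) (φ i) Set.univ
      (by
        intro n _
        have h1 := (hφ i (x (P * n + -2))).2
        rw [hsucc] at h1
        have h2 := (φ i).strictMono h1
        rw [RelIso.apply_inv_self] at h2
        have e : P * n + -2 + 1 = P * n + -1 := by ring
        rwa [e] at h2)
      (by
        intro n _
        have h1 := (hφ i (x (P * n + 1))).1
        rw [hsucc] at h1
        have e : P * n + 1 + 1 = P * n + 2 := by ring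
        rwa [e] at h1)
    refine ⟨g, g⁻¹ * φ i, by group, hg1, ?_⟩
    intro y hy
    obtain ⟨n, h1, h2⟩ := locateP hx (orb_ub hT) (orb_lb hT) (P := P) (by omega) (-1) y
    have h3 : y ≤ x (P * n + 1) := by
      by_contra hcon
      apply hy
      refine ⟨n, not_le.1 hcon, ?_⟩
      have e : P * n + -1 + P = P * n + (P - 1) := by ring
      rwa [e] at h2
    rw [RelIso.mul_apply, ← hg2 n (Set.mem_univ n) y h1 h3, RelIso.inv_apply_self]
  choose g h hgh hg hh using hfr
  have hg' : ∀ i, Su (T ^ (4 : ℤ) * g i * (T ^ (4 : ℤ))⁻¹)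
      {y | ∃ n, y ∈ Set.Ioo (x (P * n + 1)) (x (P * n + (P - 1)))} := by
    intro i
    apply (hg i).conj
    rintro y ⟨n, hn1, hn2⟩
    refine ⟨n, ?_, ?_⟩
    · have h1 := (T ^ (4 : ℤ)).strictMono hn1
      rw [RelIso.apply_inv_self, hT'] at h1
      have e : P * n + -3 + 4 = P * n + 1 := by ring
      rwa [e] at h1
    · have h1 := (T ^ (4 : ℤ)).strictMono hn2
      rw [RelIso.apply_inv_self, hT'] at h1
      exact h1.trans (hlt _ _ (by omega))
  -- coding
  have hposK : ∀ o, 0 < pos e o ∧ pos e o ≤ 2 ^ K := by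
    intro o
    unfold pos
    exact ⟨by positivity, pow_le_pow_right₀ (by norm_num) (heK o).le⟩
  obtain ⟨W, hW⟩ := coded (τ := T ^ (6 : ℤ)) (t := t)
    (E0 := {y | ∃ n, y ∈ Set.Ioo (x (P * n + 1)) (x (P * n + 4))})
    (E := {y | ∃ n, y ∈ Set.Ioo (x (P * n + 0)) (x (P * n + 6))})
    (D := {d | M ∣ d})
    (by
      rintro y ⟨n, hn1, hn2⟩
      exact ⟨n, (hlt _ _ (by omega)).trans hn1, hn2.trans (hlt _ _ (by omega))⟩)
    ht1 ht2
    (by
      rintro d y ⟨n, hn1, hn2⟩ ⟨m, hm1, hm2⟩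
      rw [← zpow_mul] at hm1 hm2
      have h1 := (T ^ (6 * d)).strictMono hn1
      have h2 := (T ^ (6 * d)).strictMono hn2
      rw [hT'] at h1 h2
      have h3 := hx.lt_iff_lt.1 (h1.trans hm2)
      have h4 := hx.lt_iff_lt.1 (hm1.trans h2)
      rw [hP] at h3 h4
      have h5 : M * n + d = M * m := by
        have e1 : 6 * M * n = 6 * (M * n) := by ring
        have e2 : 6 * M * m = 6 * (M * m) := by ring
        rw [e1, e2] at h3 h4
        omega
      exact ⟨m - n, by rw [mul_sub]; linarith⟩)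
    (pos e)
    (by
      intro k l hkl hdvd
      have h1 := hposK k
      have h2 := hposK l
      have h3 : pos e k - pos e l = 0 := Int.eq_zero_of_abs_lt_dvd hdvd (by
        rw [abs_lt]
        constructor <;> linarith)
      unfold pos at h3
      have h4 : (2 : ℤ) ^ e k = 2 ^ e l := by linarith
      have h5 : 2 ^ e k = 2 ^ e l := by exact_mod_cast h4
      exact hkl (he (Nat.pow_right_injective le_rfl h5)))
    (by
      intro i o k l hio hk hl hdvd
      have h1 := hposK k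
      have h2 := hposK l
      have h3 := hposK i
      have h4 := hposK o
      have h5 : pos e k - pos e i - pos e l + pos e o = 0 := Int.eq_zero_of_abs_lt_dvd hdvd (by
        rw [abs_lt]
        constructor <;> linarith)
      exact pos_c2 he hio hk hl h5)
    (fun o : ι => o.elim p (fun s => s.elim (fun i => c⁻¹ * h i * c)
      (fun i => c⁻¹ * (T ^ (4 : ℤ) * g i * (T ^ (4 : ℤ))⁻¹) * c)))
    (by
      intro o
      rcases o with _ | i | i
      · exact hp1
      · exact hconj _ (hh i)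
      · exact hconj _ (hg' i))
  -- everything lies in the subgroup generated by `T` and `W`
  refine ⟨T, W, fun i => ?_⟩
  set S := Subgroup.closure ({T, W} : Set Ga) with hS
  have hTS : T ∈ S := Subgroup.subset_closure (by simp)
  have hWS : W ∈ S := Subgroup.subset_closure (by simp)
  have hle : Subgroup.closure ({T ^ (6 : ℤ), W} : Set Ga) ≤ S := by
    rw [Subgroup.closure_le]
    intro z hz
    rcases hz with rfl | hz
    · exact Subgroup.zpow_mem _ hTS _
    · rw [Set.mem_singleton_iff] at hz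
      rw [hz]
      exact hWS
  have hpS : p ∈ S := hle (hW none)
  have hccS : ∀ j, cc j ∈ S := by
    intro j
    induction j with
    | zero => rw [cc0]; exact Subgroup.one_mem _
    | succ j ih =>
      rw [ccs]
      exact Subgroup.mul_mem _ (Subgroup.mul_mem _ (Subgroup.mul_mem _
        (Subgroup.zpow_mem _ hTS _) hpS) (Subgroup.inv_mem _ (Subgroup.zpow_mem _ hTS _))) ih
  have hcS : c ∈ S := by rw [hc]; exact hccS _
  have hhS : h i ∈ S := by
    have h1 : c⁻¹ * h i * c ∈ S := hle (hW (some (Sum.inl i)))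
    have e1 : h i = c * (c⁻¹ * h i * c) * c⁻¹ := by group
    rw [e1]
    exact Subgroup.mul_mem _ (Subgroup.mul_mem _ hcS h1) (Subgroup.inv_mem _ hcS)
  have hgS : g i ∈ S := by
    have h1 : c⁻¹ * (T ^ (4 : ℤ) * g i * (T ^ (4 : ℤ))⁻¹) * c ∈ S := hle (hW (some (Sum.inr i)))
    have e1 : g i = (T ^ (4 : ℤ))⁻¹ *
        (c * (c⁻¹ * (T ^ (4 : ℤ) * g i * (T ^ (4 : ℤ))⁻¹) * c) * c⁻¹) * T ^ (4 : ℤ) := by group
    rw [e1]
    exact Subgroup.mul_mem _ (Subgroup.mul_mem _ (Subgroup.inv_mem _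
      (Subgroup.zpow_mem _ hTS _)) (Subgroup.mul_mem _ (Subgroup.mul_mem _ hcS h1)
      (Subgroup.inv_mem _ hcS))) (Subgroup.zpow_mem _ hTS _)
  rw [hgh i]
  exact Subgroup.mul_mem _ hgS hhS

end Pool.Agent.X283.TGH
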