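import Mathlib

set_option autoImplicit false

namespace Pool.Agent.X283.TGH

/-- The order automorphisms of the real line. -/
abbrev Ga : Type := ℝ ≃o ℝ

/-- `f` is the identity outside of `A`. -/
def Su (f : Ga) (A : Set ℝ) : Prop := ∀ x, x ∉ A → f x = x

theorem Su.mono {f : Ga} {A B : Set ℝ} (h : Su f A) (hAB : A ⊆ B) : Su f B :=
  fun x hx => h x (fun h' => hx (hAB h'))

theorem su_one (A : Set ℝ) : Su 1 A := fun _ _ => rfl

theorem Su.map {f : Ga} {A : Set ℝ} (h : Su f A) {x : ℝ} (hx : x ∈ A) : f x ∈ A := by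
  by_contra hcon
  have h1 := h _ hcon
  have h2 := f.injective h1
  rw [h2] at hcon
  exact hcon hx

theorem Su.inv {f : Ga} {A : Set ℝ} (h : Su f A) : Su f⁻¹ A := by
  intro x hx
  have h1 := h x hx
  calc f⁻¹ x = f⁻¹ (f x) := by rw [h1]
    _ = x := RelIso.inv_apply_self f x

theorem Su.mul {f g : Ga} {A : Set ℝ} (hf : Su f A) (hg : Su g A) : Su (f * g) A := by
  intro x hx
  rw [RelIso.mul_apply, hg x hx, hf x hx]

/-- conjugation moves supports -/
theorem Su.conj {f g : Ga} {A B : Set ℝ} (hf : Su f A) (hB : ∀ x, g⁻¹ x ∈ A → x ∈ B) :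
    Su (g * f * g⁻¹) B := by
  intro x hx
  rw [RelIso.mul_apply, RelIso.mul_apply, hf _ (fun h => hx (hB x h)), RelIso.apply_inv_self]

/-- disjoint supports commute -/
theorem su_commute {f g : Ga} {A B : Set ℝ} (hf : Su f A) (hg : Su g B)
    (hAB : ∀ x, x ∈ A → x ∉ B) : Commute f g := by
  apply RelIso.ext
  intro x
  rw [RelIso.mul_apply, RelIso.mul_apply]
  by_cases hx : x ∈ A
  · rw [hg x (hAB x hx), hg _ (hAB _ (hf.map hx))]
  · rw [hf x hx]
    by_cases hx' : x ∈ B
    · rw [hf _ (fun h => hAB _ h (hg.map hx'))]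
    · rw [hg x hx', hf x hx]

section Glue

variable {ι : Type} (f : ι → Ga) (B : ι → Set ℝ)

open Classical in
/-- The glued function. -/
noncomputable def gfun (x : ℝ) : ℝ := if h : ∃ i, x ∈ B i then f h.choose x else x

variable {f B}

theorem gfun_of_mem (hB : ∀ i j x, x ∈ B i → x ∈ B j → i = j) {i : ι} {x : ℝ} (hx : x ∈ B i) :
    gfun f B x = f i x := by
  have h : ∃ i, x ∈ B i := ⟨i, hx⟩
  unfold gfun
  rw [dif_pos h, hB _ _ x h.choose_spec hx]

theorem gfun_of_notMem {x : ℝ} (hx : ∀ i, x ∉ B i) : gfun f B x = x := by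
  unfold gfun
  rw [dif_neg]
  rintro ⟨i, hi⟩
  exact hx i hi

theorem gfun_strictMono (hB : ∀ i j x, x ∈ B i → x ∈ B j → i = j) (hf : ∀ i, Su (f i) (B i)) :
    StrictMono (gfun f B) := by
  intro x y hxy
  by_cases hx : ∃ i, x ∈ B i
  · obtain ⟨i, hi⟩ := hx
    rw [gfun_of_mem hB hi]
    by_cases hyi : y ∈ B i
    · rw [gfun_of_mem hB hyi]
      exact (f i).strictMono hxy
    · have h1 : f i x < y := by
        have := (f i).strictMono hxy
        rwa [hf i y hyi] at this
      by_cases hy : ∃ j, y ∈ B j
      · obtain ⟨j, hj⟩ := hy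
        rw [gfun_of_mem hB hj]
        have h2 : f i x ∉ B j := by
          intro h
          have := hB i j _ ((hf i).map hi) h
          subst this
          exact hyi hj
        have := (f j).strictMono h1
        rwa [hf j _ h2] at this
      · push Not at hy
        rw [gfun_of_notMem hy]
        exact h1
  · push Not at hx
    rw [gfun_of_notMem hx]
    by_cases hy : ∃ j, y ∈ B j
    · obtain ⟨j, hj⟩ := hy
      rw [gfun_of_mem hB hj]
      have := (f j).strictMono hxy
      rwa [hf j x (hx j)] at this
    · push Not at hy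
      rw [gfun_of_notMem hy]
      exact hxy

theorem gfun_rightInverse (hB : ∀ i j x, x ∈ B i → x ∈ B j → i = j) (hf : ∀ i, Su (f i) (B i)) :
    Function.RightInverse (gfun (fun i => (f i)⁻¹) B) (gfun f B) := by
  intro x
  by_cases hx : ∃ i, x ∈ B i
  · obtain ⟨i, hi⟩ := hx
    rw [gfun_of_mem hB hi, gfun_of_mem hB ((hf i).inv.map hi)]
    exact RelIso.apply_inv_self (f i) x
  · push Not at hx
    rw [gfun_of_notMem hx, gfun_of_notMem hx]

end Glue

/-- **Gluing**: automorphisms with disjoint supports can be multiplied. -/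
theorem exists_glue {ι : Type} (f : ι → Ga) (B : ι → Set ℝ)
    (hB : ∀ i j x, x ∈ B i → x ∈ B j → i = j) (hf : ∀ i, Su (f i) (B i)) :
    ∃ g : Ga, (∀ i, ∀ x ∈ B i, g x = f i x) ∧ ∀ x, (∀ i, x ∉ B i) → g x = x := by
  refine ⟨StrictMono.orderIsoOfRightInverse (gfun f B) (gfun_strictMono hB hf)
    (gfun (fun i => (f i)⁻¹) B) (gfun_rightInverse hB hf), ?_, ?_⟩
  · intro i x hx
    exact gfun_of_mem hB hx
  · intro x hx
    exact gfun_of_notMem hx

/-- The maximum of two automorphisms. -/
noncomputable def mx (f g : Ga) : Ga :=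
  StrictMono.orderIsoOfRightInverse (fun x => max (f x) (g x))
    (by
      intro x y hxy
      exact max_lt_max (f.strictMono hxy) (g.strictMono hxy))
    (fun y => min (f⁻¹ y) (g⁻¹ y))
    (by
      intro y
      simp only
      rcases le_total (f⁻¹ y) (g⁻¹ y) with h | h
      · rw [min_eq_left h]
        have h1 : g (f⁻¹ y) ≤ y := by
          have := g.monotone h
          rwa [RelIso.apply_inv_self] at this
        rw [RelIso.apply_inv_self, max_eq_left h1]
      · rw [min_eq_right h]
        have h1 : f (g⁻¹ y) ≤ y := by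
          have := f.monotone h
          rwa [RelIso.apply_inv_self] at this
        rw [RelIso.apply_inv_self, max_eq_right h1])

theorem mx_apply (f g : Ga) (x : ℝ) : mx f g x = max (f x) (g x) := rfl

/-- The minimum of two automorphisms. -/
noncomputable def mn (f g : Ga) : Ga :=
  StrictMono.orderIsoOfRightInverse (fun x => min (f x) (g x))
    (by
      intro x y hxy
      exact min_lt_min (f.strictMono hxy) (g.strictMono hxy))
    (fun y => max (f⁻¹ y) (g⁻¹ y))
    (by
      intro y
      simp only
      rcases le_total (f⁻¹ y) (g⁻¹ y) with h | h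
      · rw [max_eq_right h]
        have h1 : y ≤ f (g⁻¹ y) := by
          have := f.monotone h
          rwa [RelIso.apply_inv_self] at this
        rw [RelIso.apply_inv_self, min_eq_right h1]
      · rw [max_eq_left h]
        have h1 : y ≤ g (f⁻¹ y) := by
          have := g.monotone h
          rwa [RelIso.apply_inv_self] at this
        rw [RelIso.apply_inv_self, min_eq_left h1])

theorem mn_apply (f g : Ga) (x : ℝ) : mn f g x = min (f x) (g x) := rfl

/-- Affine maps. -/
noncomputable def aff (a b : ℝ) (ha : 0 < a) : Ga :=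
  StrictMono.orderIsoOfRightInverse (fun x => a * x + b)
    (by
      intro x y hxy
      simp only
      have := mul_lt_mul_of_pos_left hxy ha
      linarith)
    (fun y => (y - b) / a)
    (by
      intro y
      simp only
      field_simp
      ring)

theorem aff_apply (a b : ℝ) (ha : 0 < a) (x : ℝ) : aff a b ha x = a * x + b := rfl

/-- pushing a point upwards inside an interval -/
theorem exists_push_up {p q q' s : ℝ} (h1 : p < q) (h2 : q ≤ q') (h3 : q' < s) :
    ∃ α : Ga, Su α (Set.Ioo p s) ∧ α q = q' := by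
  have hqp : 0 < q - p := by linarith
  have hsq : 0 < s - q := by linarith
  have hl : 0 < (q' - p) / (q - p) := div_pos (by linarith) hqp
  have hm : 0 < (s - q') / (s - q) := div_pos (by linarith) hsq
  have hl1 : 1 ≤ (q' - p) / (q - p) := by
    rw [le_div_iff₀ hqp]; linarith
  have hm1 : (s - q') / (s - q) ≤ 1 := by
    rw [div_le_one hsq]; linarith
  set l := (q' - p) / (q - p) with hldef
  set m := (s - q') / (s - q) with hmdef
  have el : l * (q - p) = q' - p := by
    rw [hldef]; field_simp
  have em : m * (s - q) = s - q' := by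
    rw [hmdef]; field_simp
  let A : Ga := aff l (p - l * p) hl
  let B : Ga := aff m (s - m * s) hm
  have hA : ∀ x, A x = l * x + (p - l * p) := fun x => rfl
  have hB : ∀ x, B x = m * x + (s - m * s) := fun x => rfl
  refine ⟨mx 1 (mn A B), ?_, ?_⟩
  · intro x hx
    rw [mx_apply, mn_apply]
    simp only [RelIso.one_apply]
    apply max_eq_left
    rw [Set.mem_Ioo, not_and_or, not_lt, not_lt] at hx
    rcases hx with hx | hx
    · refine (min_le_left _ _).trans ?_
      rw [hA]
      nlinarith
    · refine (min_le_right _ _).trans ?_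
      rw [hB]
      nlinarith
  · rw [mx_apply, mn_apply]
    simp only [RelIso.one_apply]
    have e1 : A q = q' := by
      rw [hA]; linarith
    have e2 : B q = q' := by
      rw [hB]; linarith
    rw [e1, e2, min_self]
    exact max_eq_right h2

/-- moving a point inside an interval -/
theorem exists_push {p q q' s : ℝ} (h1 : p < q) (h2 : q < s) (h3 : p < q') (h4 : q' < s) :
    ∃ α : Ga, Su α (Set.Ioo p s) ∧ α q = q' := by
  rcases le_total q q' with h | h
  · exact exists_push_up h1 h h4
  · obtain ⟨α, ha, hb⟩ := exists_push_up h3 h h2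
    refine ⟨α⁻¹, ha.inv, ?_⟩
    rw [← hb, RelIso.inv_apply_self]

/-- cutting off an automorphism outside of an interval -/
theorem exists_trim (f : Ga) {p q r s : ℝ} (h1 : p < q) (h2 : q ≤ r) (h3 : r < s)
    (h4 : p < f q) (h5 : f r < s) :
    ∃ g : Ga, Su g (Set.Ioo p s) ∧ ∀ x, q ≤ x → x ≤ r → g x = f x := by
  have hqr : f q ≤ f r := f.monotone h2
  obtain ⟨α, ha1, ha2⟩ := exists_push (p := p) (q := q) (q' := max q (f r)) (s := s) h1
    (by linarith) (lt_max_of_lt_left h1) (max_lt (by linarith) h5)
  obtain ⟨β, hb1, hb2⟩ := exists_push (p := p) (q := r) (q' := min r (f q)) (s := s)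
    (by linarith) h3 (lt_min (by linarith) h4) (min_lt_of_left_lt h3)
  refine ⟨mx (mn f α) β, ?_, ?_⟩
  · intro x hx
    rw [mx_apply, mn_apply, ha1 x hx, hb1 x hx]
    exact max_eq_right (min_le_right _ _)
  · intro x hx1 hx2
    rw [mx_apply, mn_apply]
    have e1 : f x ≤ α x := by
      calc f x ≤ f r := f.monotone hx2
        _ ≤ max q (f r) := le_max_right _ _
        _ = α q := ha2.symm
        _ ≤ α x := α.monotone hx1
    have e2 : β x ≤ f x := by
      calc β x ≤ β r := β.monotone hx2
        _ = min r (f q) := hb2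
        _ ≤ f q := min_le_right _ _
        _ ≤ f x := f.monotone hx1
    rw [min_eq_left e1, max_eq_left e2]

/-- the restriction of an automorphism to an interval with fixed end points -/
theorem exists_cut (f : Ga) {p q : ℝ} (hp : f p = p) (hq : f q = q) :
    ∃ g : Ga, Su g (Set.Ioo p q) ∧ ∀ x ∈ Set.Ioo p q, g x = f x := by
  classical
  have key : ∀ (f : Ga), f p = p → f q = q → ∀ x ∈ Set.Ioo p q, f x ∈ Set.Ioo p q := by
    intro f hp hq x hx
    constructor
    · have := f.strictMono hx.1
      rwa [hp] at this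
    · have := f.strictMono hx.2
      rwa [hq] at this
  have hp' : f⁻¹ p = p := by
    conv_lhs => rw [← hp]
    exact RelIso.inv_apply_self f p
  have hq' : f⁻¹ q = q := by
    conv_lhs => rw [← hq]
    exact RelIso.inv_apply_self f q
  let F : ℝ → ℝ := fun x => if x ∈ Set.Ioo p q then f x else x
  let F' : ℝ → ℝ := fun x => if x ∈ Set.Ioo p q then f⁻¹ x else x
  have hF : ∀ x ∈ Set.Ioo p q, F x = f x := fun x hx => if_pos hx
  have hF2 : ∀ x, x ∉ Set.Ioo p q → F x = x := fun x hx => if_neg hx
  have hF' : ∀ x ∈ Set.Ioo p q, F' x = f⁻¹ x := fun x hx => if_pos hx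
  have hF2' : ∀ x, x ∉ Set.Ioo p q → F' x = x := fun x hx => if_neg hx
  have hmono : StrictMono F := by
    intro x y hxy
    by_cases hx : x ∈ Set.Ioo p q
    · rw [hF x hx]
      by_cases hy : y ∈ Set.Ioo p q
      · rw [hF y hy]
        exact f.strictMono hxy
      · rw [hF2 y hy]
        have h1 := (key f hp hq x hx).2
        have h2 : q ≤ y := by
          by_contra h
          exact hy ⟨hx.1.trans hxy, not_le.1 h⟩
        linarith
    · rw [hF2 x hx]
      by_cases hy : y ∈ Set.Ioo p q
      · rw [hF y hy]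
        have h1 := (key f hp hq y hy).1
        have h2 : x ≤ p := by
          by_contra h
          exact hx ⟨not_le.1 h, hxy.trans hy.2⟩
        linarith
      · rw [hF2 y hy]
        exact hxy
  have hinv : Function.RightInverse F' F := by
    intro x
    by_cases hx : x ∈ Set.Ioo p q
    · rw [hF' x hx, hF _ (key f⁻¹ hp' hq' x hx)]
      exact RelIso.apply_inv_self f x
    · rw [hF2' x hx, hF2 x hx]
  exact ⟨StrictMono.orderIsoOfRightInverse F hmono F' hinv, fun x hx => hF2 x hx,
    fun x hx => hF x hx⟩

end Pool.Agent.X283.TGH
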