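import Pool.Agent.X283.TGH.Tools

set_option autoImplicit false

namespace Pool.Agent.X283.TGH

/-- The translates of `E` under `t` are pairwise disjoint. -/
def Wan (t : Ga) (E : Set ℝ) : Prop := ∀ d : ℤ, ∀ y, y ∈ E → (t ^ d) y ∈ E → d = 0

theorem Su.pow {f : Ga} {A : Set ℝ} (h : Su f A) (n : ℕ) : Su (f ^ n) A := by
  induction n with
  | zero => exact su_one A
  | succ n ih => rw [pow_succ]; exact ih.mul h

theorem exists_wander {ι : Type} (P Q R S : ι → ℝ) (h1 : ∀ i, P i < Q i) (h2 : ∀ i, Q i < R i)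
    (h3 : ∀ i, R i < S i)
    (hdis : ∀ i j x, x ∈ Set.Ioo (P i) (S i) → x ∈ Set.Ioo (P j) (S j) → i = j) :
    ∃ σ : Ga, Su σ {x | ∃ i, x ∈ Set.Ioo (P i) (S i)} ∧ Wan σ {x | ∃ i, x ∈ Set.Ioo (Q i) (R i)} ∧
      ∀ i, σ (Q i) = R i := by
  have hex : ∀ i, ∃ α : Ga, Su α (Set.Ioo (P i) (S i)) ∧ α (Q i) = R i := fun i =>
    exists_push (h1 i) ((h2 i).trans (h3 i)) ((h1 i).trans (h2 i)) (h3 i)
  choose α ha1 ha2 using hex
  obtain ⟨σ, hs1, hs2⟩ := exists_glue α (fun i => Set.Ioo (P i) (S i)) hdis ha1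
  have hQ : ∀ i, Q i ∈ Set.Ioo (P i) (S i) := fun i => ⟨h1 i, (h2 i).trans (h3 i)⟩
  have hR : ∀ i, R i ∈ Set.Ioo (P i) (S i) := fun i => ⟨(h1 i).trans (h2 i), h3 i⟩
  have hσQ : ∀ i, σ (Q i) = R i := fun i => by rw [hs1 i _ (hQ i), ha2]
  have hblock : ∀ (i : ι) (n : ℕ) (x : ℝ), x ∈ Set.Ioo (P i) (S i) →
      (σ ^ n) x ∈ Set.Ioo (P i) (S i) := by
    intro i n
    induction n with
    | zero => intro x hx; simpa using hx
    | succ n ih =>
      intro x hx
      rw [pow_succ', RelIso.mul_apply, hs1 i _ (ih x hx)]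
      exact (ha1 i).map (ih x hx)
  have hge : ∀ (i : ι) (n : ℕ), R i ≤ (σ ^ (n + 1)) (Q i) := by
    intro i n
    induction n with
    | zero => simp [hσQ]
    | succ n ih =>
      rw [pow_succ', RelIso.mul_apply]
      have h4 : σ (Q i) ≤ σ (R i) := σ.monotone (h2 i).le
      rw [hσQ] at h4
      exact h4.trans (σ.monotone ih)
  have hnat : ∀ (n : ℕ) (y : ℝ), y ∈ {x | ∃ i, x ∈ Set.Ioo (Q i) (R i)} →
      (σ ^ (n + 1)) y ∈ {x | ∃ i, x ∈ Set.Ioo (Q i) (R i)} → False := by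
    rintro n y ⟨i, hi⟩ ⟨j, hj⟩
    have hy : y ∈ Set.Ioo (P i) (S i) := ⟨(h1 i).trans hi.1, hi.2.trans (h3 i)⟩
    have h4 := hblock i (n + 1) y hy
    have h5 : (σ ^ (n + 1)) y ∈ Set.Ioo (P j) (S j) := ⟨(h1 j).trans hj.1, hj.2.trans (h3 j)⟩
    have hij := hdis i j _ h4 h5
    subst hij
    have h6 := (σ ^ (n + 1)).strictMono hi.1
    have h7 := hge i n
    have h8 := hj.2
    linarith
  refine ⟨σ, ?_, ?_, hσQ⟩
  · intro x hx
    exact hs2 x (fun i hi => hx ⟨i, hi⟩)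
  · intro d y hy hdy
    rcases lt_trichotomy d 0 with hd | hd | hd
    · exfalso
      obtain ⟨n, hn⟩ : ∃ n : ℕ, d = -((n : ℤ) + 1) := ⟨(-d - 1).toNat, by omega⟩
      apply hnat n _ hdy
      have : (σ ^ (n + 1)) ((σ ^ d) y) = y := by
        rw [← RelIso.mul_apply, ← zpow_natCast σ (n + 1), ← zpow_add, hn]
        simp
      rw [this]
      exact hy
    · exact hd
    · exfalso
      obtain ⟨n, hn⟩ : ∃ n : ℕ, d = (n : ℤ) + 1 := ⟨(d - 1).toNat, by omega⟩
      apply hnat n _ hy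
      have : (σ ^ (n + 1)) = σ ^ d := by
        rw [← zpow_natCast σ (n + 1), hn]
        simp
      rw [this]
      exact hdy

/-- The infinite repetition trick. -/
theorem exists_swindle {t : Ga} {E0 E : Set ℝ} (h0 : E0 ⊆ E) (ht : Su t E) (hw : Wan t E0)
    {f : Ga} (hf : Su f E0) : ∃ F : Ga, Su F E ∧ F * t * F⁻¹ * t⁻¹ = f := by
  have hdis : ∀ (i j : ℕ) (x : ℝ), x ∈ {x | (t ^ i)⁻¹ x ∈ E0} → x ∈ {x | (t ^ j)⁻¹ x ∈ E0} →
      i = j := by
    intro i j x hi hj
    have h1 := hw ((i : ℤ) - j) ((t ^ i)⁻¹ x) hi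
    have h2 : (t ^ ((i : ℤ) - j)) ((t ^ i)⁻¹ x) = (t ^ j)⁻¹ x := by
      rw [← RelIso.mul_apply, ← zpow_natCast, ← zpow_natCast, ← zpow_neg, ← zpow_neg, ← zpow_add]
      congr 2
      ring
    rw [h2] at h1
    have := h1 hj
    omega
  have hsu : ∀ i : ℕ, Su (t ^ i * f * (t ^ i)⁻¹) {x | (t ^ i)⁻¹ x ∈ E0} := fun i =>
    hf.conj (fun x hx => hx)
  obtain ⟨F, hF1, hF2⟩ := exists_glue (fun i : ℕ => t ^ i * f * (t ^ i)⁻¹) _ hdis hsu
  have hBE : ∀ (i : ℕ) (x : ℝ), (t ^ i)⁻¹ x ∈ E0 → x ∈ E := by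
    intro i x hx
    have h1 := (ht.pow i).map (h0 hx)
    rwa [RelIso.apply_inv_self] at h1
  have hstep : ∀ (j : ℕ) (y : ℝ), (t ^ (j + 1))⁻¹ (t y) = (t ^ j)⁻¹ y := by
    intro j y
    rw [← RelIso.mul_apply, pow_succ', mul_inv_rev, mul_assoc, inv_mul_cancel, mul_one]
  refine ⟨F, fun x hx => hF2 x (fun i hi => hx (hBE i x hi)), ?_⟩
  have key : F * t = f * (t * F) := by
    apply RelIso.ext
    intro x
    simp only [RelIso.mul_apply]
    by_cases hx : ∃ j : ℕ, (t ^ j)⁻¹ x ∈ E0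
    · obtain ⟨j, hj⟩ := hx
      have e1 : F x = (t ^ j) (f ((t ^ j)⁻¹ x)) := by
        rw [hF1 j x hj]; rfl
      have hm : (t ^ j)⁻¹ (F x) ∈ E0 := by
        rw [e1, RelIso.inv_apply_self]
        exact hf.map hj
      have e2 : f (t (F x)) = t (F x) := by
        apply hf
        intro hcon
        have h1 : t (F x) ∈ {x | (t ^ 0)⁻¹ x ∈ E0} := by simpa using hcon
        have h2 : t (F x) ∈ {x | (t ^ (j + 1))⁻¹ x ∈ E0} := by
          change (t ^ (j + 1))⁻¹ (t (F x)) ∈ E0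
          rw [hstep]
          exact hm
        have := hdis _ _ _ h1 h2
        omega
      have h3 : t x ∈ {x | (t ^ (j + 1))⁻¹ x ∈ E0} := by
        change (t ^ (j + 1))⁻¹ (t x) ∈ E0
        rw [hstep]
        exact hj
      have e3 : F (t x) = (t ^ (j + 1)) (f ((t ^ (j + 1))⁻¹ (t x))) := by
        rw [hF1 (j + 1) (t x) h3]; rfl
      rw [e2, e3, hstep, e1, pow_succ', RelIso.mul_apply]
    · push Not at hx
      rw [hF2 x hx]
      by_cases hE : t x ∈ E0
      · have h1 : t x ∈ {x | (t ^ 0)⁻¹ x ∈ E0} := by simpa using hE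
        rw [hF1 0 _ h1]
        simp
      · rw [hf _ hE]
        apply hF2
        intro j hj
        cases j with
        | zero => exact hE (by simpa using hj)
        | succ j =>
          apply hx j
          have : (t ^ (j + 1))⁻¹ (t x) ∈ E0 := hj
          rwa [hstep] at this
  calc F * t * F⁻¹ * t⁻¹ = (F * t) * (t * F)⁻¹ := by group
    _ = f := by rw [key]; group

theorem comm_formula {G : Type} [Group G] {x y x' y' : G} (h1 : Commute x' y) (h2 : Commute y' x)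
    (h3 : Commute x' y') :
    (x * x') * (y * y') * (x * x')⁻¹ * (y * y')⁻¹ = x * y * x⁻¹ * y⁻¹ := by
  have e1 : (x * x') * (y * y') = (x * y) * (x' * y') := by
    calc (x * x') * (y * y') = x * (x' * y) * y' := by group
      _ = x * (y * x') * y' := by rw [h1.eq]
      _ = _ := by group
  have e2 : (y * y') * (x * x') = (y * x) * (x' * y') := by
    calc (y * y') * (x * x') = y * (y' * x) * x' := by group
      _ = y * (x * y') * x' := by rw [h2.eq]
      _ = (y * x) * (y' * x') := by group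
      _ = _ := by rw [h3.symm.eq]
  calc (x * x') * (y * y') * (x * x')⁻¹ * (y * y')⁻¹
      = ((x * x') * (y * y')) * ((y * y') * (x * x'))⁻¹ := by group
    _ = _ := by rw [e1, e2]; group

/-- **Isolation.** -/
theorem isolate {ι : Type} (τ : Ga) (E : Set ℝ) (D : Set ℤ)
    (hD : ∀ d : ℤ, ∀ y ∈ E, (τ ^ d) y ∈ E → d ∈ D) (a : ι → ℤ)
    (c1 : ∀ k l, k ≠ l → a k - a l ∉ D)
    (c2 : ∀ i o k l, i ≠ o → k ≠ i → l ≠ o → a k - a i - a l + a o ∉ D)
    (w : ι → Ga) (hw : ∀ i, Su (w i) E) :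
    ∃ W : Ga, ∀ i o, i ≠ o → ∃ X ∈ Subgroup.closure ({τ, W} : Set Ga),
      ∃ Y ∈ Subgroup.closure ({τ, W} : Set Ga),
        X * Y * X⁻¹ * Y⁻¹ = w i * w o * (w i)⁻¹ * (w o)⁻¹ := by
  have hdis : ∀ (i j : ι) (x : ℝ), x ∈ {x | (τ ^ (a i))⁻¹ x ∈ E} →
      x ∈ {x | (τ ^ (a j))⁻¹ x ∈ E} → i = j := by
    intro i j x hi hj
    by_contra hij
    have h1 := hD (a i - a j) ((τ ^ (a i))⁻¹ x) hi
    have h2 : (τ ^ (a i - a j)) ((τ ^ (a i))⁻¹ x) = (τ ^ (a j))⁻¹ x := by
      rw [← RelIso.mul_apply, ← zpow_neg, ← zpow_neg, ← zpow_add]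
      congr 2
      ring
    rw [h2] at h1
    exact c1 i j hij (h1 hj)
  obtain ⟨W, hW1, hW2⟩ := exists_glue (fun i => τ ^ (a i) * w i * (τ ^ (a i))⁻¹) _ hdis
    (fun i => (hw i).conj (fun x hx => hx))
  have hshift : ∀ (b c : ℤ) (x : ℝ), (τ ^ b)⁻¹ ((τ ^ c) x) = (τ ^ (c - b)) x := by
    intro b c x
    rw [← RelIso.mul_apply, ← zpow_neg, ← zpow_add]
    congr 2
    ring
  -- the conjugate of `W` by `τ ^ (a i)` is `w i` times something supported elsewhere
  have hX : ∀ i, Su ((w i)⁻¹ * ((τ ^ (a i))⁻¹ * W * τ ^ (a i)))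
      {x | ∃ k, k ≠ i ∧ (τ ^ (a i - a k)) x ∈ E} := by
    intro i x hx
    simp only [RelIso.mul_apply]
    by_cases hxE : x ∈ E
    · have hm : (τ ^ (a i)) x ∈ {x | (τ ^ (a i))⁻¹ x ∈ E} := by
        change (τ ^ (a i))⁻¹ ((τ ^ (a i)) x) ∈ E
        rwa [RelIso.inv_apply_self]
      rw [hW1 i _ hm]
      simp only [RelIso.mul_apply, RelIso.inv_apply_self]
    · have h1 : W ((τ ^ (a i)) x) = (τ ^ (a i)) x := by
        apply hW2
        intro k hk
        have hk' : (τ ^ (a k))⁻¹ ((τ ^ (a i)) x) ∈ E := hk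
        rw [hshift] at hk'
        by_cases hki : k = i
        · subst hki
          simp at hk'
          exact hxE hk'
        · exact hx ⟨k, hki, hk'⟩
      rw [h1, RelIso.inv_apply_self]
      exact (hw i).inv x hxE
  refine ⟨W, fun i o hio => ?_⟩
  have hτ : τ ∈ Subgroup.closure ({τ, W} : Set Ga) := Subgroup.subset_closure (by simp)
  have hWm : W ∈ Subgroup.closure ({τ, W} : Set Ga) := Subgroup.subset_closure (by simp)
  refine ⟨(τ ^ (a i))⁻¹ * W * τ ^ (a i), ?_, (τ ^ (a o))⁻¹ * W * τ ^ (a o), ?_, ?_⟩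
  · exact Subgroup.mul_mem _ (Subgroup.mul_mem _ (Subgroup.inv_mem _
      (Subgroup.zpow_mem _ hτ _)) hWm) (Subgroup.zpow_mem _ hτ _)
  · exact Subgroup.mul_mem _ (Subgroup.mul_mem _ (Subgroup.inv_mem _
      (Subgroup.zpow_mem _ hτ _)) hWm) (Subgroup.zpow_mem _ hτ _)
  · have e1 : (τ ^ (a i))⁻¹ * W * τ ^ (a i) =
        w i * ((w i)⁻¹ * ((τ ^ (a i))⁻¹ * W * τ ^ (a i))) := by group
    have e2 : (τ ^ (a o))⁻¹ * W * τ ^ (a o) =
        w o * ((w o)⁻¹ * ((τ ^ (a o))⁻¹ * W * τ ^ (a o))) := by group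
    rw [e1, e2]
    apply comm_formula
    · apply su_commute (hX i) (hw o)
      rintro x ⟨k, hk, hkE⟩ hxE
      exact c1 i k (Ne.symm hk) (hD _ x hxE hkE)
    · apply su_commute (hX o) (hw i)
      rintro x ⟨k, hk, hkE⟩ hxE
      exact c1 o k (Ne.symm hk) (hD _ x hxE hkE)
    · apply su_commute (hX i) (hX o)
      rintro x ⟨k, hk, hkE⟩ ⟨l, hl, hlE⟩
      have h1 := hD (a k - a i - a l + a o) _ hkE
      have h2 : (τ ^ (a k - a i - a l + a o)) ((τ ^ (a i - a k)) x) = (τ ^ (a o - a l)) x := by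
        rw [← RelIso.mul_apply, ← zpow_add]
        congr 2
        ring
      rw [h2] at h1
      exact c2 i o k l hio hk hl (h1 hlE)

/-- Coding a family of automorphisms supported in `E0` by one automorphism. -/
theorem coded {ι : Type} {τ t : Ga} {E0 E : Set ℝ} (h0 : E0 ⊆ E) (ht : Su t E) (hw : Wan t E0)
    {D : Set ℤ} (hD : ∀ d : ℤ, ∀ y ∈ E, (τ ^ d) y ∈ E → d ∈ D) (a : Option ι → ℤ)
    (c1 : ∀ k l, k ≠ l → a k - a l ∉ D)
    (c2 : ∀ i o k l, i ≠ o → k ≠ i → l ≠ o → a k - a i - a l + a o ∉ D)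
    (f : ι → Ga) (hf : ∀ i, Su (f i) E0) :
    ∃ W : Ga, ∀ i, f i ∈ Subgroup.closure ({τ, W} : Set Ga) := by
  have hex := fun i => exists_swindle h0 ht hw (hf i)
  choose F hF1 hF2 using hex
  obtain ⟨W, hW⟩ := isolate τ E D hD a c1 c2 (fun o => o.elim t F) (by
    intro o
    cases o with
    | none => exact ht
    | some i => exact hF1 i)
  refine ⟨W, fun i => ?_⟩
  obtain ⟨X, hX, Y, hY, hXY⟩ := hW (some i) none (by simp)
  have : f i = X * Y * X⁻¹ * Y⁻¹ := by
    rw [hXY]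
    exact (hF2 i).symm
  rw [this]
  exact Subgroup.mul_mem _ (Subgroup.mul_mem _ (Subgroup.mul_mem _ hX hY)
    (Subgroup.inv_mem _ hX)) (Subgroup.inv_mem _ hY)

/-- Powers of two form a Sidon set. -/
theorem sidon : ∀ (k o i l : ℕ), 2 ^ k + 2 ^ o = 2 ^ i + 2 ^ l → k = i ∨ k = l := by
  intro k
  induction k with
  | zero =>
    intro o i l h
    rcases Nat.eq_zero_or_pos i with hi | hi
    · exact Or.inl hi.symm
    rcases Nat.eq_zero_or_pos l with hl | hl
    · exact Or.inr hl.symm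
    obtain ⟨i, rfl⟩ := Nat.exists_eq_add_of_lt hi
    obtain ⟨l, rfl⟩ := Nat.exists_eq_add_of_lt hl
    exfalso
    rcases Nat.eq_zero_or_pos o with ho | ho
    · subst ho
      have h1 : 1 ≤ 2 ^ i := Nat.one_le_two_pow
      have h2 : 1 ≤ 2 ^ l := Nat.one_le_two_pow
      rw [zero_add, zero_add, pow_succ, pow_succ] at h
      omega
    · obtain ⟨o, rfl⟩ := Nat.exists_eq_add_of_lt ho
      rw [zero_add, zero_add, zero_add, pow_succ, pow_succ, pow_succ] at h
      omega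
  | succ k ih =>
    intro o i l h
    have hk : 1 ≤ 2 ^ k := Nat.one_le_two_pow
    rcases Nat.eq_zero_or_pos o with ho | ho
    · subst ho
      rcases Nat.eq_zero_or_pos i with hi | hi
      · subst hi
        right
        have : 2 ^ (k + 1) = 2 ^ l := by omega
        exact Nat.pow_right_injective le_rfl this
      · rcases Nat.eq_zero_or_pos l with hl | hl
        · subst hl
          left
          have : 2 ^ (k + 1) = 2 ^ i := by omega
          exact Nat.pow_right_injective le_rfl this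
        · exfalso
          obtain ⟨i, rfl⟩ := Nat.exists_eq_add_of_lt hi
          obtain ⟨l, rfl⟩ := Nat.exists_eq_add_of_lt hl
          rw [zero_add, zero_add, pow_succ, pow_succ, pow_succ] at h
          omega
    · obtain ⟨o, rfl⟩ := Nat.exists_eq_add_of_lt ho
      have ho' : 1 ≤ 2 ^ o := Nat.one_le_two_pow
      rcases Nat.eq_zero_or_pos i with hi | hi
      · subst hi
        exfalso
        rcases Nat.eq_zero_or_pos l with hl | hl
        · subst hl
          rw [zero_add, pow_succ, pow_succ] at h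
          omega
        · obtain ⟨l, rfl⟩ := Nat.exists_eq_add_of_lt hl
          rw [zero_add, zero_add, pow_succ, pow_succ, pow_succ] at h
          omega
      · obtain ⟨i, rfl⟩ := Nat.exists_eq_add_of_lt hi
        rcases Nat.eq_zero_or_pos l with hl | hl
        · subst hl
          exfalso
          rw [zero_add, zero_add, pow_succ, pow_succ, pow_succ] at h
          omega
        · obtain ⟨l, rfl⟩ := Nat.exists_eq_add_of_lt hl
          rw [zero_add, zero_add, zero_add, pow_succ, pow_succ, pow_succ, pow_succ] at h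
          have h' : 2 ^ k + 2 ^ o = 2 ^ i + 2 ^ l := by omega
          rcases ih o i l h' with h1 | h1 <;> omega

/-- the positions -/
def pos {ι : Type} (e : Option ι → ℕ) (o : Option ι) : ℤ := 2 ^ (e o)

theorem pos_c2 {ι : Type} {e : Option ι → ℕ} (he : Function.Injective e)
    {i o k l : Option ι} (hio : i ≠ o) (hk : k ≠ i) (_ : l ≠ o)
    (h : pos e k - pos e i - pos e l + pos e o = 0) : False := by
  unfold pos at h
  have h1 : (2 : ℤ) ^ e k + 2 ^ e o = 2 ^ e i + 2 ^ e l := by linarith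
  have h2 : 2 ^ e k + 2 ^ e o = 2 ^ e i + 2 ^ e l := by exact_mod_cast h1
  rcases sidon _ _ _ _ h2 with h3 | h3
  · exact hk (he h3)
  · rw [h3] at h2
    have h4 : 2 ^ e o = 2 ^ e i := by omega
    exact hio (he (Nat.pow_right_injective le_rfl h4)).symm

/-- **The infinite coding lemma.** -/
theorem coded_nat {ι : Type} (P Q R S : ι → ℝ) (h1 : ∀ i, P i < Q i) (h2 : ∀ i, Q i < R i)
    (h3 : ∀ i, R i < S i)
    (hdis : ∀ i j x, x ∈ Set.Ioo (P i) (S i) → x ∈ Set.Ioo (P j) (S j) → i = j)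
    (f : ℕ → Ga) (hf : ∀ k, Su (f k) {x | ∃ i, x ∈ Set.Ioo (Q i) (R i)}) :
    ∃ s W : Ga, ∀ k, f k ∈ Subgroup.closure ({s, W} : Set Ga) := by
  let L : ι → ℝ := fun i => (P i + Q i) / 2
  let M : ι → ℝ := fun i => (R i + S i) / 2
  have hL1 : ∀ i, P i < L i := fun i => by simp only [L]; linarith [h1 i]
  have hL2 : ∀ i, L i < Q i := fun i => by simp only [L]; linarith [h1 i]
  have hM1 : ∀ i, R i < M i := fun i => by simp only [M]; linarith [h3 i]
  have hM2 : ∀ i, M i < S i := fun i => by simp only [M]; linarith [h3 i]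
  have hLM : ∀ i, L i < M i := fun i => (hL2 i).trans ((h2 i).trans (hM1 i))
  obtain ⟨s, -, hs2, -⟩ := exists_wander P L M S hL1 hLM hM2 hdis
  obtain ⟨t, ht1, ht2, -⟩ := exists_wander L Q R M hL2 h2 hM1 (by
    intro i j x hi hj
    exact hdis i j x ⟨(hL1 i).trans hi.1, hi.2.trans (hM2 i)⟩
      ⟨(hL1 j).trans hj.1, hj.2.trans (hM2 j)⟩)
  let e : Option ℕ → ℕ := fun o => o.elim 0 (fun k => k + 1)
  have he : Function.Injective e := by
    intro a b hab
    cases a <;> cases b <;> simp [e] at hab ⊢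
    exact hab
  obtain ⟨W, hW⟩ := coded (τ := s) (t := t) (E0 := {x | ∃ i, x ∈ Set.Ioo (Q i) (R i)})
    (E := {x | ∃ i, x ∈ Set.Ioo (L i) (M i)}) (D := {0})
    (by
      rintro x ⟨i, hi⟩
      exact ⟨i, (hL2 i).trans hi.1, hi.2.trans (hM1 i)⟩)
    ht1 ht2 (fun d y hy hdy => hs2 d y hy hdy) (pos e)
    (by
      intro k l hkl h
      have h4 : pos e k - pos e l = 0 := h
      unfold pos at h4
      have h5 : (2 : ℤ) ^ e k = 2 ^ e l := by linarith
      have h6 : 2 ^ e k = 2 ^ e l := by exact_mod_cast h5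
      exact hkl (he (Nat.pow_right_injective le_rfl h6)))
    (by
      intro i o k l hio hk hl h
      exact pos_c2 he hio hk hl h)
    f hf
  exact ⟨s, W, hW⟩

end Pool.Agent.X283.TGH
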